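import Pool.Agent.Results.MP_410757_gt.SolContact

/-!
# One primitive for all the levels strictly between `e₀` and `c_u`, all lattices of left translations

Groundwork for `Pool.Agent.Results.MP_410757_gt.AllLevels`.
-/

open scoped ContDiff
open Set

noncomputable section

namespace Pool.Agent.Y685.SolC

open Pool.Agent.Results.MP_410757_gt.SolContact

/-- A group of left translations of `Sol` acting freely and properly discontinuously on `ℝ^3` with
compact quotient. -/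
def IsSolLattice (Γ : Subgroup (Equiv.Perm V3)) : Prop :=
  IsDeckGroup Γ ∧ ∀ g ∈ Γ, ∃ c a b : ℝ, ∀ x, g x = act c a b x

lemma isSolLattice_Gam : IsSolLattice Gam := by
  refine ⟨isDeckGroup_Gam, ?_⟩
  rintro g ⟨k, a, b, -, hg⟩
  exact ⟨k * t0, a, b, hg⟩

/-- the correction function -/
def gg (z : Phase) : ℝ := evc 0 z * (-1 + (q2 z - 2) * (1 / 8))

lemma contDiff_gg : ContDiff ℝ ∞ gg := by
  have h0 : ContDiff ℝ ∞ (fun z => evc 0 z) := (evc 0).contDiff
  exact h0.mul (contDiff_const.add ((contDiff_q2.sub contDiff_const).mul contDiff_const))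

/-- the derivative of the correction function -/
def dgg (z : Phase) : Phase →L[ℝ] ℝ :=
  (-1 + (q2 z - 2) * (1 / 8)) • evc 0 + (evc 0 z * (1 / 8)) • dq2 z

lemma hasFDerivAt_gg (z : Phase) : HasFDerivAt gg (dgg z) z := by
  have h0 := (evc 0).hasFDerivAt (x := z)
  have h1 := (((hasFDerivAt_q2 z).sub_const 2).mul_const (1 / 8 : ℝ)).const_add (-1 : ℝ)
  have h2 := h0.mul h1
  convert! h2 using 1
  ext v
  · simp [dgg]; ring
  · simp [dgg]; ring

/-- the primitive -/
def theta8 (z : Phase) : Phase →L[ℝ] ℝ := lam0 z + fderiv ℝ gg z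

lemma contDiff_theta8 : ContDiff ℝ ∞ theta8 :=
  lam0.contDiff.add (contDiff_gg.fderiv_right (m := ∞) (by simp))

lemma extD_theta8 (z v w : Phase) : extD theta8 z v w = omega v w := by
  have hat := contDiff_gg.contDiffAt (x := z)
  have hd : DifferentiableAt ℝ (fderiv ℝ gg) z :=
    (hat.fderiv_right (m := 1) (by norm_cast)).differentiableAt (by norm_num)
  have h1 : fderiv ℝ theta8 z = lam0 + fderiv ℝ (fderiv ℝ gg) z := by
    have := (lam0.hasFDerivAt (x := z)).add hd.hasFDerivAt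
    exact this.fderiv
  have hs : IsSymmSndFDerivAt ℝ gg z := hat.isSymmSndFDerivAt (by
    simp only [minSmoothness_of_isRCLikeNormedField]; norm_cast)
  rw [extD, h1]
  simp only [add_apply, lam0_apply, omega]
  rw [hs v w]
  ring

lemma theta8_hamVec (z : Phase) : theta8 z (hamVec ham z) =
    (evc 0 z) ^ 2 * (1 - q2 z / 8) + (q1 z) ^ 2 * (2 - (q2 z - 2) / 8)
      + (q2 z - 2) ^ 2 * q2 z / 8 := by
  obtain ⟨h1, h2, h3, h4⟩ := hamVec_ham z
  rw [theta8, (hasFDerivAt_gg z).fderiv, add_apply, lam0_apply, h1]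
  simp only [dgg, dq2, add_apply, smul_apply, sub_apply, smul_eq_mul, h2, h3, h4]
  ring

lemma theta8_pos {z : Phase} (h0 : 0 < ham z) (h2 : ham z < 2) :
    0 < theta8 z (hamVec ham z) := by
  rw [theta8_hamVec]
  rw [ham] at h0 h2
  have hs : (evc 0 z) ^ 2 + (q1 z) ^ 2 + (q2 z - 2) ^ 2 < 4 := by linarith
  have hs0 : 0 < (evc 0 z) ^ 2 + (q1 z) ^ 2 + (q2 z - 2) ^ 2 := by linarith
  have a0 := sq_nonneg (evc 0 z)
  have a1 := sq_nonneg (q1 z)
  have a2 := sq_nonneg (q2 z - 2)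
  have hy : (q2 z - 2) ^ 2 < 2 ^ 2 := by linarith
  have hy' := abs_lt_of_sq_lt_sq hy (by norm_num)
  obtain ⟨hy1, hy2⟩ := abs_lt.1 hy'
  have hq0 : 0 < q2 z := by linarith
  have b0 : (evc 0 z) ^ 2 * (1 / 2) ≤ (evc 0 z) ^ 2 * (1 - q2 z / 8) :=
    mul_le_mul_of_nonneg_left (by linarith) a0
  have b1 : (q1 z) ^ 2 * (1 / 2) ≤ (q1 z) ^ 2 * (2 - (q2 z - 2) / 8) :=
    mul_le_mul_of_nonneg_left (by linarith) a1
  have b2 : 0 ≤ (q2 z - 2) ^ 2 * q2 z / 8 := by positivity
  by_cases hz : 0 < (evc 0 z) ^ 2 + (q1 z) ^ 2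
  · linarith
  · have hy3 : 0 < (q2 z - 2) ^ 2 := by linarith
    have b3 : 0 < (q2 z - 2) ^ 2 * q2 z / 8 := by positivity
    have c0 : 0 ≤ (evc 0 z) ^ 2 * (1 / 2) := by positivity
    have c1 : 0 ≤ (q1 z) ^ 2 * (1 / 2) := by positivity
    linarith

/-! ## Invariance -/

lemma ham_inv' {g : Equiv.Perm V3} {c a b : ℝ} (hg : ∀ x, g x = act c a b x) (z : Phase) :
    ham (cotLift g z) = ham z := by
  obtain ⟨h0, h1, h2⟩ := inv_of_mem hg z
  rw [ham, ham, h0, h1, h2]

lemma gg_inv {g : Equiv.Perm V3} {c a b : ℝ} (hg : ∀ x, g x = act c a b x) (z : Phase) :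
    gg (cotLift g z) = gg z := by
  obtain ⟨h0, -, h2⟩ := inv_of_mem hg z
  rw [gg, gg, h0, h2]

lemma theta8_inv {g : Equiv.Perm V3} {c a b : ℝ} (hg : ∀ x, g x = act c a b x) (z : Phase) :
    PullbackEqAt (cotLift g) theta8 z := by
  intro v
  have hΦ : cotLift g = fun z => (act c a b z.1, Dm (-c) z.2) := funext (cotLift_eq hg)
  set L : Phase →L[ℝ] Phase :=
    ((Dm c) ∘L (ContinuousLinearMap.fst ℝ (V3) (V3))).prod
      ((Dm (-c)) ∘L (ContinuousLinearMap.snd ℝ (V3) (V3))) with hL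
  have hd : HasFDerivAt (cotLift g) L z := by
    rw [hΦ]
    exact ((hasFDerivAt_act c a b z.1).comp z hasFDerivAt_fst).prodMk
      ((Dm (-c)).hasFDerivAt.comp z hasFDerivAt_snd)
  rw [hd.fderiv]
  have hff : fderiv ℝ gg (cotLift g z) (L v) = fderiv ℝ gg z v := by
    have h1 : HasFDerivAt gg (fderiv ℝ gg (cotLift g z)) (cotLift g z) :=
      ((contDiff_gg.contDiffAt).differentiableAt (by simp)).hasFDerivAt
    have h2 := h1.comp z hd
    have h3 : gg ∘ cotLift g = gg := funext (fun z => gg_inv hg z)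
    rw [h3] at h2
    rw [h2.fderiv]
    rfl
  rw [theta8, theta8, add_apply, add_apply, hff, lam0_apply, lam0_apply, cotLift_eq hg]
  congr 1
  show inner ℝ (Dm (-c) z.2) (Dm c v.1) = (inner ℝ z.2 v.1 : ℝ)
  rw [Dm_inner, Dm_neg_Dm]

lemma isConvexSuperlinear_ham' {Γ : Subgroup (Equiv.Perm V3)} (hΓ : IsSolLattice Γ) :
    IsConvexSuperlinear Γ ham where
  contDiff := isConvexSuperlinear_ham.contDiff
  invariant := by
    intro g hg z
    obtain ⟨c, a, b, h⟩ := hΓ.2 g hg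
    exact ham_inv' h z
  convex := isConvexSuperlinear_ham.convex
  superlinear := isConvexSuperlinear_ham.superlinear

end Pool.Agent.Y685.SolC
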