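import Pool.Agent.Y685.SolC.Core

/-!
# Hamiltonians near the model

Groundwork for `Pool.Agent.Results.MP_410757_gt.AllLevels`: the same primitive works for every convex
superlinear Hamiltonian which is `C¹`-close to the model on the compact region `{ham ≤ 3}` of `T*M`.
-/

open scoped ContDiff
open Set

noncomputable section

namespace Pool.Agent.Y685.SolC

open Pool.Agent.Results.MP_410757_gt.SolContact

/-- the weights of the left-invariant frame -/
def wt : Fin 3 → ℝ := ![0, 1, -1]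

/-- the left-invariant vector field `e^{w_i x_0} ∂/∂x_i` -/
def hor (i : Fin 3) (z : Phase) : Phase := (Real.exp (wt i * z.1 0) • bv i, 0)

/-- the left-invariant vector field `e^{-w_i x_0} ∂/∂p_i` -/
def ver (i : Fin 3) (z : Phase) : Phase := (0, Real.exp (-(wt i * z.1 0)) • bv i)

/-- On the region `{ham ≤ 3}`, the function `H` and its derivatives in the directions of the
left-invariant frame differ from those of `ham` by at most `ε`. -/
def IsC1Near (ε : ℝ) (H : Phase → ℝ) : Prop :=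
  ∀ z, ham z ≤ 3 → |H z - ham z| ≤ ε ∧
    ∀ i, |fderiv ℝ H z (hor i z) - fderiv ℝ ham z (hor i z)| ≤ ε ∧
      |fderiv ℝ H z (ver i z) - fderiv ℝ ham z (ver i z)| ≤ ε

lemma hor_eq (i : Fin 3) (z : Phase) :
    hor i z = Real.exp (wt i * z.1 0) • ((bv i, 0) : Phase) := by
  simp [hor]

lemma ver_eq (i : Fin 3) (z : Phase) :
    ver i z = Real.exp (-(wt i * z.1 0)) • ((0, bv i) : Phase) := by
  simp [ver]

lemma hamVec_fst' {H : Phase → ℝ} {z : Phase} (hd : DifferentiableAt ℝ H z) (i : Fin 3) :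
    (hamVec H z).1 i = fderiv ℝ H z (0, bv i) := by
  have h : HasFDerivAt (fun p => H (z.1, p))
      ((fderiv ℝ H z) ∘L (ContinuousLinearMap.inr ℝ V3 V3)) z.2 := by
    have h1 : HasFDerivAt (fun p : V3 => (z.1, p)) (ContinuousLinearMap.inr ℝ V3 V3) z.2 :=
      hasFDerivAt_prodMk_right z.1 z.2
    exact HasFDerivAt.comp (g := H) (f := fun p : V3 => (z.1, p)) z.2 hd.hasFDerivAt h1
  show (gradient (fun p => H (z.1, p)) z.2) i = _
  rw [gradient_coord h]
  rfl

lemma hamVec_snd' {H : Phase → ℝ} {z : Phase} (hd : DifferentiableAt ℝ H z) (i : Fin 3) :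
    (hamVec H z).2 i = -fderiv ℝ H z (bv i, 0) := by
  have h : HasFDerivAt (fun x => H (x, z.2))
      ((fderiv ℝ H z) ∘L (ContinuousLinearMap.inl ℝ V3 V3)) z.1 := by
    have h1 : HasFDerivAt (fun x : V3 => (x, z.2)) (ContinuousLinearMap.inl ℝ V3 V3) z.1 :=
      hasFDerivAt_prodMk_left z.1 z.2
    exact HasFDerivAt.comp (g := H) (f := fun x : V3 => (x, z.2)) z.1 hd.hasFDerivAt h1
  show (-gradient (fun x => H (x, z.2)) z.1) i = _
  rw [PiLp.neg_apply, gradient_coord h]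
  rfl

lemma theta8_hamVec_gen {H : Phase → ℝ} {z : Phase} (hd : DifferentiableAt ℝ H z) :
    theta8 z (hamVec H z) = evc 0 z * fderiv ℝ H z (ver 0 z) + q1 z * fderiv ℝ H z (ver 1 z)
      + q2 z * fderiv ℝ H z (ver 2 z)
      - (-1 + (q2 z - 2) * (1 / 8)) * fderiv ℝ H z (hor 0 z)
      - evc 0 z * (1 / 8) * (fderiv ℝ H z (hor 2 z) + q2 z * fderiv ℝ H z (ver 0 z)) := by
  rw [theta8, (hasFDerivAt_gg z).fderiv, add_apply, lam0_apply, inner3]
  simp only [dgg, dq2, add_apply, smul_apply, sub_apply, smul_eq_mul, hor_eq, ver_eq, map_smul,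
    evc_apply, pos_apply, hamVec_fst' hd, hamVec_snd' hd, q1, q2]
  have e1 : wt 0 = 0 := rfl
  have e2 : wt 1 = 1 := rfl
  have e3 : wt 2 = -1 := rfl
  rw [e1, e2, e3]
  have ee : Real.exp (z.1 0) * Real.exp (-(z.1 0)) = 1 := by rw [← Real.exp_add]; simp
  simp only [zero_mul, neg_zero, Real.exp_zero, one_mul, neg_mul, neg_neg]
  linear_combination (-(z.2 1 * fderiv ℝ H z (0, bv 1)) - z.2 2 * fderiv ℝ H z (0, bv 2)) * ee

lemma ham_bounds {z : Phase} (hz : ham z ≤ 3) :
    |evc 0 z| ≤ 5 / 2 ∧ |q1 z| ≤ 5 / 2 ∧ |q2 z - 2| ≤ 5 / 2 := by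
  rw [ham] at hz
  have a0 := sq_nonneg (evc 0 z)
  have a1 := sq_nonneg (q1 z)
  have a2 := sq_nonneg (q2 z - 2)
  refine ⟨abs_le_of_sq_le_sq (by nlinarith) (by norm_num),
    abs_le_of_sq_le_sq (by nlinarith) (by norm_num),
    abs_le_of_sq_le_sq (by nlinarith) (by norm_num)⟩

lemma mul_bound {a x A ε : ℝ} (ha : |a| ≤ A) (hx : |x| ≤ ε) : |a * x| ≤ A * ε := by
  rw [abs_mul]
  exact mul_le_mul ha hx (abs_nonneg _) ((abs_nonneg _).trans ha)

lemma theta8_near {H : Phase → ℝ} {ε : ℝ} {z : Phase} (hd : DifferentiableAt ℝ H z)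
    (hz : ham z ≤ 3) (h : ∀ i, |fderiv ℝ H z (hor i z) - fderiv ℝ ham z (hor i z)| ≤ ε ∧
      |fderiv ℝ H z (ver i z) - fderiv ℝ ham z (ver i z)| ≤ ε) :
    theta8 z (hamVec ham z) - 13 * ε ≤ theta8 z (hamVec H z) := by
  have hd' : DifferentiableAt ℝ ham z := (hasFDerivAt_ham z).differentiableAt
  obtain ⟨b0, b1, b2⟩ := ham_bounds hz
  have hε : 0 ≤ ε := (abs_nonneg _).trans (h 0).1
  rw [theta8_hamVec_gen hd, theta8_hamVec_gen hd']
  have b2' := abs_le.1 b2
  have b3 : |q2 z| ≤ 9 / 2 := by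
    rw [abs_le]; constructor <;> linarith
  have b4 : |-1 + (q2 z - 2) * (1 / 8)| ≤ 21 / 16 := by
    rw [abs_le]; constructor <;> linarith
  have b5 : |evc 0 z * (1 / 8)| ≤ 5 / 16 := by
    have := abs_le.1 b0
    rw [abs_le]; constructor <;> linarith
  have c0 := abs_le.1 (mul_bound b0 (h 0).2)
  have c1 := abs_le.1 (mul_bound b1 (h 1).2)
  have c2 := abs_le.1 (mul_bound b3 (h 2).2)
  have c3 := abs_le.1 (mul_bound b4 (h 0).1)
  have c4 := abs_le.1 (mul_bound b5 (h 2).1)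
  have c5 := abs_le.1 (mul_bound b5 (mul_bound b3 (h 0).2))
  have e : ∀ a x y : ℝ, a * (x - y) = a * x - a * y := fun a x y => mul_sub a x y
  nlinarith [c0.1, c1.1, c2.1, c3.2, c4.2, c5.2]

lemma theta8_low {h ε : ℝ} (h0 : 0 < h) (h2 : h < 2) (hε : ε = h * (2 - h) / 1000) {z : Phase}
    (hz : |h - ham z| ≤ ε) : 13 * ε < theta8 z (hamVec ham z) := by
  have hε1 : 0 < ε := by rw [hε]; have : 0 < 2 - h := by linarith
                         positivity
  have hε2 : ε ≤ h / 500 := by rw [hε]; nlinarith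
  have hε3 : ε ≤ (2 - h) / 500 := by rw [hε]; nlinarith
  obtain ⟨hz1, hz2⟩ := abs_le.1 hz
  rw [theta8_hamVec]
  have hh : ham z = (1 / 2) * ((evc 0 z) ^ 2 + (q1 z) ^ 2 + (q2 z - 2) ^ 2) := rfl
  have a0 := sq_nonneg (evc 0 z)
  have a1 := sq_nonneg (q1 z)
  have a2 := sq_nonneg (q2 z - 2)
  set d := (2 - h) / 4 with hd
  have hd0 : 0 < d := by rw [hd]; linarith
  have hd1 : d ≤ 1 / 2 := by rw [hd]; linarith
  have hy : (q2 z - 2) ^ 2 < (2 - d) ^ 2 := by
    nlinarith
  have hy' := abs_lt_of_sq_lt_sq hy (by linarith)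
  obtain ⟨hy1, hy2⟩ := abs_lt.1 hy'
  have hq0 : d < q2 z := by linarith
  have hq1 : q2 z < 4 := by linarith
  have b0 : (evc 0 z) ^ 2 * (d / 8) ≤ (evc 0 z) ^ 2 * (1 - q2 z / 8) :=
    mul_le_mul_of_nonneg_left (by linarith) a0
  have b1 : (q1 z) ^ 2 * (d / 8) ≤ (q1 z) ^ 2 * (2 - (q2 z - 2) / 8) :=
    mul_le_mul_of_nonneg_left (by linarith) a1
  have b2 : (q2 z - 2) ^ 2 * (d / 8) ≤ (q2 z - 2) ^ 2 * q2 z / 8 := by
    have := mul_le_mul_of_nonneg_left (show d / 8 ≤ q2 z / 8 by linarith) a2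
    linarith
  have b3 : (d / 4) * (h - ε) ≤ (d / 4) * ham z :=
    mul_le_mul_of_nonneg_left (by linarith) (by linarith)
  have b4 : (d / 4) * (h - h / 500) ≤ (d / 4) * (h - ε) :=
    mul_le_mul_of_nonneg_left (by linarith) (by linarith)
  have b5 : 13 * ε < (d / 4) * (h - h / 500) := by
    have : (d / 4) * (h - h / 500) = h * (2 - h) * (499 / 8000) := by rw [hd]; ring
    rw [this, hε]
    have : 0 < h * (2 - h) := mul_pos h0 (by linarith)
    linarith
  nlinarith

/-! ## Convexity along the fibres -/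

/-- the centre of the fibre over `x` -/
def ctr (x : V3) : V3 := !₂[0, 0, 2 * Real.exp (x 0)]

lemma ham_ray (x q : V3) (s : ℝ) : ham (x, ctr x + s • q) = s ^ 2 * ham (x, ctr x + q) := by
  rw [ham_eq, ham_eq]
  have : Real.exp (-(x 0)) * (2 * Real.exp (x 0)) = 2 := by
    rw [mul_left_comm, ← Real.exp_add]; simp
  have e0 : ctr x 0 = 0 := rfl
  have e1 : ctr x 1 = 0 := rfl
  have e2 : ctr x 2 = 2 * Real.exp (x 0) := rfl
  simp only [PiLp.add_apply, PiLp.smul_apply, smul_eq_mul, e0, e1, e2, mul_add, this]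
  ring

lemma ray_convex {Γ : Subgroup (Equiv.Perm V3)} {H : Phase → ℝ} (hH : IsConvexSuperlinear Γ H)
    (x c q : V3) (hq : q ≠ 0) : ConvexOn ℝ univ (fun s : ℝ => H (x, c + s • q)) := by
  have hf : ContDiff ℝ 2 (fun s : ℝ => H (x, c + s • q)) := hH.contDiff.comp (by fun_prop)
  have hf1 : ContDiff ℝ 1 (deriv (fun s : ℝ => H (x, c + s • q))) := by
    have h2 : ContDiff ℝ (1 + 1) (fun s : ℝ => H (x, c + s • q)) := by
      convert! hf using 1
    exact (contDiff_succ_iff_deriv.1 h2).2.2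
  apply convexOn_univ_of_deriv2_nonneg (hf.differentiable (by norm_num))
    (hf1.differentiable (by norm_num))
  intro s
  have h1 := hH.convex x (c + s • q) q hq
  have h2 : (fun t : ℝ => H (x, c + s • q + t • q)) =
      fun t : ℝ => (fun s : ℝ => H (x, c + s • q)) (s + t) := by
    funext t
    simp only [add_smul, add_assoc]
  rw [h2, iteratedDeriv_comp_const_add 2 (fun s : ℝ => H (x, c + s • q)) s] at h1
  simp only [add_zero, iteratedDeriv_eq_iterate] at h1
  exact h1.le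

lemma outside {Γ : Subgroup (Equiv.Perm V3)} {H : Phase → ℝ} (hH : IsConvexSuperlinear Γ H)
    {ε : ℝ} (hε : ε ≤ 1 / 4) (hn : IsC1Near ε H) {z : Phase} (hz : 3 < ham z) : 2 < H z := by
  obtain ⟨x, p⟩ := z
  set q : V3 := p - ctr x with hq
  have hp : ctr x + q = p := by rw [hq]; abel
  set s : ℝ := √(3 / ham (x, p)) with hs
  have h0 : 0 < ham (x, p) := by linarith
  have hs2 : s ^ 2 * ham (x, p) = 3 := by
    rw [hs, Real.sq_sqrt (by positivity)]; field_simp
  have hs0 : 0 < s := Real.sqrt_pos.2 (by positivity)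
  have hs1 : s ≤ 1 := by
    by_contra hcon
    push Not at hcon
    nlinarith
  have hq0 : q ≠ 0 := by
    intro h
    rw [h, add_zero] at hp
    have := ham_ray x 0 0
    rw [add_zero, smul_zero, add_zero, hp] at this
    simp at this
    linarith
  have hcv := ray_convex hH x (ctr x) q hq0
  have hc := hcv.2 (mem_univ (0 : ℝ)) (mem_univ (1 : ℝ)) (show 0 ≤ 1 - s by linarith) hs0.le
    (by ring)
  simp only [smul_eq_mul, mul_zero, mul_one, zero_add, zero_smul, add_zero, one_smul, hp] at hc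
  have hb : ham (x, ctr x + s • q) = 3 := by rw [ham_ray, hp, hs2]
  have hb0 : ham (x, ctr x) = 0 := by
    have := ham_ray x 0 0
    simpa using this
  have n1 := abs_le.1 (hn (x, ctr x + s • q) hb.le).1
  have n2 := abs_le.1 (hn (x, ctr x) (by rw [hb0]; norm_num)).1
  rw [hb] at n1
  rw [hb0] at n2
  have n3 : (1 - s) * H (x, ctr x) ≤ 1 * (1 / 4) := by
    calc (1 - s) * H (x, ctr x) ≤ (1 - s) * (1 / 4) :=
          mul_le_mul_of_nonneg_left (by linarith [n2.2]) (by linarith)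
      _ ≤ 1 * (1 / 4) := mul_le_mul_of_nonneg_right (by linarith) (by norm_num)
  have n4 : 5 / 2 ≤ s * H (x, p) := by linarith [n1.1]
  show 2 < H (x, p)
  by_contra hcon
  push Not at hcon
  have : s * H (x, p) ≤ s * 2 := mul_le_mul_of_nonneg_left hcon hs0.le
  linarith

/-! ## The three conclusions -/

/-- `h` is larger than some value `k` with `π({H = k}) = M`, that is, `e₀ < h`. -/
def AboveE0 (H : Phase → ℝ) (h : ℝ) : Prop := ∃ k < h, k ∈ surjectiveLevels H

/-- `h` is smaller than some lower bound of the subsolution levels, that is, `h < c_u`. -/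
def BelowCu (H : Phase → ℝ) (h : ℝ) : Prop := ∃ k > h, k ∈ lowerBounds (subsolutionLevels H)

lemma eps_le {h : ℝ} (h0 : 0 < h) (h2 : h < 2) :
    0 < h * (2 - h) / 1000 ∧ h * (2 - h) / 1000 ≤ h / 500 ∧
    h * (2 - h) / 1000 ≤ (2 - h) / 500 := by
  have h3 : 0 < 2 - h := by linarith
  refine ⟨by positivity, ?_, ?_⟩ <;> nlinarith

lemma aboveE0_near {Γ : Subgroup (Equiv.Perm V3)} {H : Phase → ℝ}
    (hH : IsConvexSuperlinear Γ H) {h : ℝ} (h0 : 0 < h) (h2 : h < 2)
    (hn : IsC1Near (h * (2 - h) / 1000) H) : AboveE0 H h := by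
  obtain ⟨e0, e1, e2⟩ := eps_le h0 h2
  refine ⟨h / 2, by linarith, fun x => ?_⟩
  have hcont : ContinuousOn (fun s : ℝ => H (x, ctr x + s • bv 0)) (Icc 0 2) := by
    have : ContDiff ℝ 2 (fun s : ℝ => H (x, ctr x + s • bv 0)) := hH.contDiff.comp (by fun_prop)
    exact this.continuous.continuousOn
  have hb : ∀ s : ℝ, ham (x, ctr x + s • bv 0) = s ^ 2 / 2 := by
    intro s
    rw [ham_ray, ham_eq]
    have : Real.exp (-(x 0)) * (2 * Real.exp (x 0)) = 2 := by
      rw [mul_left_comm, ← Real.exp_add]; simp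
    have e0 : ctr x 0 = 0 := rfl
    have e1 : ctr x 1 = 0 := rfl
    have e2 : ctr x 2 = 2 * Real.exp (x 0) := rfl
    simp [e0, e1, e2, this]
    ring
  have n1 := abs_le.1 (hn (x, ctr x + (0 : ℝ) • bv 0) (by rw [hb]; norm_num)).1
  have n2 := abs_le.1 (hn (x, ctr x + (2 : ℝ) • bv 0) (by rw [hb]; norm_num)).1
  rw [hb] at n1 n2
  obtain ⟨s, -, hs⟩ := intermediate_value_Icc (by norm_num : (0 : ℝ) ≤ 2) hcont
    (show h / 2 ∈ Icc _ _ from ⟨by
      show H (x, ctr x + (0 : ℝ) • bv 0) ≤ h / 2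
      linarith [n1.2], by
      show h / 2 ≤ H (x, ctr x + (2 : ℝ) • bv 0)
      linarith [n2.1]⟩)
  exact ⟨_, hs⟩

lemma belowCu_near {Γ : Subgroup (Equiv.Perm V3)} {H : Phase → ℝ}
    (hH : IsConvexSuperlinear Γ H) {h : ℝ} (h0 : 0 < h) (h2 : h < 2)
    (hn : IsC1Near (h * (2 - h) / 1000) H) : BelowCu H h := by
  obtain ⟨e0, e1, e2⟩ := eps_le h0 h2
  refine ⟨1 + h / 2, by linarith, ?_⟩
  rintro k ⟨u, hu, hk⟩
  by_contra hcon
  push Not at hcon
  have h3 : ∀ x, ham (x, gradient u x) ≤ k + (2 - h) / 500 := by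
    intro x
    have h4 := hk x
    have h5 : ham (x, gradient u x) ≤ 3 := by
      by_contra h6
      push Not at h6
      have := outside hH (by linarith) hn h6
      linarith
    have h6 := abs_le.1 (hn _ h5).1
    linarith [h6.1]
  have := two_le_of_subsolution hu h3
  linarith

lemma contact_near {Γ : Subgroup (Equiv.Perm V3)} (hΓ : IsSolLattice Γ) {H : Phase → ℝ}
    (hH : IsConvexSuperlinear Γ H) {h : ℝ} (h0 : 0 < h) (h2 : h < 2)
    (hn : IsC1Near (h * (2 - h) / 1000) H) : IsContactType Γ H h := by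
  obtain ⟨e0, e1, e2⟩ := eps_le h0 h2
  refine ⟨theta8, ⟨univ, isOpen_univ, subset_univ _, contDiff_theta8.contDiffOn⟩, ?_,
    fun z _ v w _ _ => extD_theta8 z v w, ?_⟩
  · intro g hg z _
    obtain ⟨c, a, b, hg'⟩ := hΓ.2 g hg
    exact theta8_inv hg' z
  · intro z hz
    have hz' : H z = h := hz
    have h5 : ham z ≤ 3 := by
      by_contra h6
      push Not at h6
      have := outside hH (by linarith) hn h6
      linarith
    obtain ⟨n1, n2⟩ := hn z h5
    rw [hz'] at n1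
    have hd : DifferentiableAt ℝ H z := hH.contDiff.differentiable (by norm_num) z
    have h6 := theta8_near hd h5 n2
    have h7 := theta8_low h0 h2 rfl n1
    linarith

lemma ham_near {ε : ℝ} (hε : 0 ≤ ε) : IsC1Near ε ham := by
  intro z _
  simp [hε]

end Pool.Agent.Y685.SolC
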